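import Mathlib

set_option autoImplicit false

namespace Pool.Agent.Results.MP_3553b5_co.Slack

/-- the Hamming-distance graph `H_q(n,d)` -/
def H (q n d : ℕ) : SimpleGraph (Fin n → ZMod q) where
  Adj x y := x ≠ y ∧ d ≤ hammingDist x y
  symm := ⟨fun x y h => ⟨h.1.symm, by rw [hammingDist_comm]; exact h.2⟩⟩
  loopless := ⟨fun x h => h.1 rfl⟩

/-- proper colouring -/
def Proper {V α : Type} (G : SimpleGraph V) (K : V → α) : Prop := ∀ u v, G.Adj u v → K u ≠ K v

/-- `xy` is an edge and exchanging the colours of `x` and `y` gives a proper colouring -/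
def Transition {V α : Type} [DecidableEq V] (G : SimpleGraph V) (K : V → α) (x y : V) : Prop :=
  G.Adj x y ∧ Proper G (fun v => if v = x then K y else if v = y then K x else K v)

def L : List ℕ := [619, 669, 708, 512, 604, 335, 104, 484, 649, 691, 432, 171, 56, 618, 220, 97,
  363, 116, 261, 568, 410, 637, 300, 575, 686, 722, 476, 516, 479, 626, 2, 177, 237, 103, 376, 390,
  118, 37, 215, 487, 125, 494, 457, 7, 562, 151, 612, 208, 469, 291, 78, 277, 272, 256, 355, 430,
  174, 304, 285, 633, 397, 579, 330, 688, 689, 614, 389, 46, 503, 68, 30, 549, 404, 272, 236, 102,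
  197, 293, 135]

def cw (i : Fin 79) : Fin 6 → ZMod 3 := fun j => ((L.getD i.val 0 / 3 ^ j.val % 3 : ℕ) : ZMod 3)

lemma cover' : ∀ a b c d e f : ZMod 3, ∃ i : Fin 79, hammingDist ![a, b, c, d, e, f] (cw i) ≤ 1 := by
  decide +kernel

lemma cover (x : Fin 6 → ZMod 3) : ∃ i : Fin 79, hammingDist x (cw i) ≤ 1 := by
  have := cover' (x 0) (x 1) (x 2) (x 3) (x 4) (x 5)
  have e : ![x 0, x 1, x 2, x 3, x 4, x 5] = x := by
    funext j; fin_cases j <;> rfl
  rwa [e] at this

noncomputable def base (x : Fin 6 → ZMod 3) : Fin 81 := Fin.castLE (by norm_num) (cover x).choose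

lemma base_lt (x : Fin 6 → ZMod 3) : (base x).val < 79 := (cover x).choose.2

lemma base_proper : Proper (H 3 6 3) base := by
  intro u v huv h
  have h1 := (cover u).choose_spec
  have h2 := (cover v).choose_spec
  have e : (cover u).choose = (cover v).choose := Fin.castLE_injective _ h
  rw [e] at h1
  have h3 := hammingDist_triangle_right u v (cw (cover v).choose)
  have := huv.2
  omega

lemma two {x y : Fin 6 → ZMod 3} (a b : Fin 81) (ha : 79 ≤ a.val) (hb : 79 ≤ b.val) (hab : a ≠ b) :
    Proper (H 3 6 3) (fun v => if v = x then a else if v = y then b else base v) := by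
  intro u v huv h
  have hne := huv.ne
  have h1 := base_lt u
  have h2 := base_lt v
  have h3 := base_proper u v huv
  simp only at h
  split_ifs at h <;> first | (subst_vars; contradiction) | omega

lemma main : ∃ K : (Fin 6 → ZMod 3) → Fin 81, Proper (H 3 6 3) K ∧
    ∃ x y, Transition (H 3 6 3) K x y := by
  have h01 : (0 : Fin 6 → ZMod 3) ≠ 1 := by decide
  refine ⟨fun v => if v = 0 then 79 else if v = 1 then 80 else base v,
    two 79 80 (by decide) (by decide) (by decide), 0, 1, ⟨h01, by decide⟩, ?_⟩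
  have := two (x := 0) (y := 1) 80 79 (by decide) (by decide) (by decide)
  convert this using 2 with v
  by_cases h0 : v = 0
  · simp [h0, h01.symm]
  · by_cases h1 : v = 1
    · simp [h1, h01.symm]
    · simp [h0, h1]

/-- An `81`-colouring of `H_3(6,3)` with a transition edge. -/
theorem result : ∃ q n d : ℕ, 3 ≤ q ∧ 2 ≤ d ∧ d ≤ n ∧
    ∃ K : (Fin n → ZMod q) → Fin (q ^ (n - d + 1)), Proper (H q n d) K ∧
      ∃ x y, Transition (H q n d) K x y :=
  ⟨3, 6, 3, le_rfl, by norm_num, by norm_num, main⟩

end Pool.Agent.Results.MP_3553b5_co.Slack
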